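import Mathlib
import Pool.Agent.TH53.SL4
import Pool.Agent.TH53.SL5

/-!
# Polynomials with few distinct zeros modulo a prime number have Mahler measure above `M(L)`

Let `p` be a prime number and `f` an irreducible integer polynomial with `M(f) > 1`. Let `s` be the
number of distinct zeros of `f` modulo `p` (in an algebraic closure of the field with `p`
elements), and let `N ≥ 1` be such that for every `t` the `p ^ t`-th powers of the complex zeros of
`f` take at least `N` distinct values (so `N = deg f` is allowed if no quotient of two distinct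
zeros is a root of unity, or if no such quotient is a root of unity of `p`-power order).

If `4 p s log (p N) ≤ ε ^ 2 N log p`, where `0 < ε ≤ 1`, then `M(f) ≥ min (2, p ^ ((1 - ε) / 2))`,
and `M(f) ≥ p ^ ((1 - ε) / 2)` if `f` is monic. In particular, if `16 p s log (p N) ≤ N log p`, then
`M(f) ≥ 2 ^ (1 / 4) > M(L)`, where `L` is Lehmer's polynomial.

The number `N` cannot be replaced by `deg f` in general without proving a lower bound for all
polynomials: `g (X ^ (p ^ j))` has the Mahler measure of `g`, degree `p ^ j * deg g`, and at most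
`deg g` distinct zeros modulo `p`.

Method: let `m = p ^ t` with `m` about `2 (deg f / N) log (p N) / (ε log p)`. There is a monic
integer polynomial `F` of degree `D ≤ deg f / m + s` such that `f mod p` divides `F ^ m mod p`; by
the Frobenius congruence the values of `F` at the `m`-th powers of the zeros of `f` are divisible by
`p`. So the Vandermonde determinant of the distinct `m`-th powers is divisible by
`p ^ (∑ j, ⌊j / D⌋)`, and Hadamard's inequality bounds it from above in terms of `M(f)`.
-/

set_option autoImplicit false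

open Polynomial

namespace Pool.Agent.Results.MP_dc0c68_nt.FewZerosModP

/-- The Mahler measure of an integer polynomial. -/
noncomputable def M (f : ℤ[X]) : ℝ := (f.map (Int.castRingHom ℂ)).mahlerMeasure

/-- Lehmer's polynomial. -/
noncomputable def L : ℤ[X] := X ^ 10 + X ^ 9 - X ^ 7 - X ^ 6 - X ^ 5 - X ^ 4 - X ^ 3 + X + 1

/-- The number of distinct zeros of `f` modulo `p`, in an algebraic closure of the field with `p`
elements. -/
noncomputable def zerosMod (p : ℕ) [Fact p.Prime] (f : ℤ[X]) : ℕ :=
  ((f.map (Int.castRingHom (ZMod p))).rootSet (AlgebraicClosure (ZMod p))).ncard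

/-- The number of distinct values of `z ^ (p ^ t)` for the complex zeros `z` of `f`. -/
noncomputable def powZeros (p : ℕ) (f : ℤ[X]) (t : ℕ) : ℕ :=
  ((fun z : ℂ => z ^ p ^ t) '' (f.rootSet ℂ)).ncard

/-- **Irreducible polynomials with few distinct zeros modulo `p`.** -/
theorem result (p : ℕ) [Fact p.Prime] (f : ℤ[X]) (hf : Irreducible f) (hM : 1 < M f) (N : ℕ)
    (hN1 : 1 ≤ N) (hN : ∀ t : ℕ, N ≤ powZeros p f t) :
    (∀ ε : ℝ, 0 < ε → ε ≤ 1 →
      4 * (p : ℝ) * zerosMod p f * Real.log (p * N) ≤ ε ^ 2 * N * Real.log p →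
        min 2 ((p : ℝ) ^ ((1 - ε) / 2)) ≤ M f ∧ (f.Monic → (p : ℝ) ^ ((1 - ε) / 2) ≤ M f)) ∧
    (16 * (p : ℝ) * zerosMod p f * Real.log (p * N) ≤ N * Real.log p → M L < M f) := by
  classical
  have hp : p.Prime := Fact.out
  have hp1 : (1 : ℝ) < p := by exact_mod_cast hp.one_lt
  have hp2 : (2 : ℝ) ≤ p := by exact_mod_cast hp.two_le
  have hN1' : (1 : ℝ) ≤ N := by exact_mod_cast hN1
  have hlogp : 0 < Real.log p := Real.log_pos hp1
  have hlog : Real.log (p * N) = Real.log N + Real.log p := by
    rw [Real.log_mul (by linarith) (by linarith)]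
    ring
  have key : ∀ ε : ℝ, 0 < ε → ε ≤ 1 →
      4 * (p : ℝ) * zerosMod p f * Real.log (p * N) ≤ ε ^ 2 * N * Real.log p →
        min 2 ((p : ℝ) ^ ((1 - ε) / 2)) ≤ M f := by
    intro ε h1 h2 h3
    rw [hlog] at h3
    exact Pool.Agent.TH53.SL.irreducible_bound' p f hf hM N hN ε h1 h2 h3
  refine ⟨fun ε h1 h2 h3 => ⟨key ε h1 h2 h3, fun hm => ?_⟩, fun h => ?_⟩
  · rw [hlog] at h3
    have h4 := Pool.Agent.TH53.HR.rdeg_le (f.map (Int.castRingHom (ZMod p))) (hm.map _).ne_zero
      (Ω := AlgebraicClosure (ZMod p))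
    have hl : 0 ≤ Real.log N + Real.log p := by
      have := Real.log_nonneg hN1'
      linarith
    have h5 := Pool.Agent.TH53.SL.monic_bound' p f hf hm N hN ε h1 h2 (by
      refine le_trans (mul_le_mul_of_nonneg_right (mul_le_mul_of_nonneg_left ?_ (by linarith)) hl) h3
      exact_mod_cast h4)
    rw [← Real.log_rpow (by linarith)] at h5
    exact (Real.log_le_log_iff (by positivity) (by
      have : (0:ℝ) < M f := by linarith
      exact this)).mp h5
  · have h1 := key (1 / 2) (by norm_num) (by norm_num) (by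
      have : (1 / 2 : ℝ) ^ 2 * N * Real.log p = (N * Real.log p) / 4 := by ring
      rw [this]
      linarith)
    have h2 : (2 : ℝ) ^ ((1 : ℝ) / 4) ≤ min 2 ((p : ℝ) ^ ((1 - 1 / 2 : ℝ) / 2)) := by
      apply le_min
      · calc (2 : ℝ) ^ ((1 : ℝ) / 4) ≤ (2 : ℝ) ^ (1 : ℝ) :=
              Real.rpow_le_rpow_of_exponent_le (by norm_num) (by norm_num)
          _ = 2 := Real.rpow_one 2
      · have h3 : ((1 - 1 / 2 : ℝ) / 2) = (1 : ℝ) / 4 := by norm_num
        rw [h3]
        exact Real.rpow_le_rpow (by norm_num) hp2 (by norm_num)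
    exact (Pool.Agent.TH53.SL.lehmer_lt').trans_le (h2.trans h1)

end Pool.Agent.Results.MP_dc0c68_nt.FewZerosModP
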