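import Mathlib
import Pool.Agent.TH53.SL5
import Pool.Agent.TH860.LQ.Fin

/-!
# Local factors modulo a prime and Lehmer's problem

Let `f` be an irreducible integer polynomial of degree `d` with `M(f) > 1`, let `p` be a prime and
let `f ≡ A B` modulo `p` with `A`, `B` coprime. Let `a = deg A`, and let `N(m)` be the number of
distinct `m`-th powers of the complex zeros of `f` (so `N(m) = d` if no quotient of two distinct
zeros is an `m`-th root of unity). Nothing is assumed on the factor `B`.

(A) Let `m ≥ 1` and let `G` be a monic integer polynomial of degree `D ≥ 1` such that `A` divides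
`G (X ^ m)` modulo `p`. Put `N = N(m)`.

(1) If `f` is monic, then `a (a N - 2 D d) log p ≤ D d (d log N + 2 N m log M(f))`.

(2) If `D d (d log N + N (m / 2) log 2) ≤ a (a N - 2 D d) log p`, then `M(f) > M(L)`, where `L` is
Lehmer's polynomial.

(B) Put `Q = p ^ r` and `N = N(Q)`.

Suppose that `20 d ≤ N Q`, that `20 d log N ≤ N Q` (that is, `Q ≥ 20 max (1, log d)` if `N = d`), and
that all the irreducible factors of `A` have multiplicity at least `20 Q` in `A`.

(3) If `f` is monic, then `(2 / 5) (a / d) log p < log M(f) + 1 / 40`.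

(4) If `d ≤ 2 a log p`, then `M(f) > M(L)`.

Suppose that `8 d ≤ N Q` and that all the irreducible factors of `A` have multiplicity at least `Q`
in `A`.

(5) If `f` is monic, then `a log p ≤ 4 d ((d / N) (log N) / Q + 2 log M(f))`.

So if `M(f) ≤ M(L)` then, for each prime `p`, the zeros modulo `p` of multiplicity at least `400 p
max (1, log d)` are less than `d / (2 log p)` in number, counted with multiplicity (for `f` with no
quotient of two distinct zeros a root of unity of order a power of `p`).

Method: by Hensel's lemma `A` corresponds to `a` conjugates `z` of a zero of `f`, for which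
`G (z ^ m)` is divisible by `p`; the other conjugates are arbitrary. The discriminant of the distinct
`m`-th powers is divisible by a power of `p` whose exponent is quadratic in `a`, and Hadamard's
inequality bounds it from above in terms of `M(f)`.
-/

set_option autoImplicit false

open Polynomial

namespace Pool.Agent.Results.MP_dc0c68_nt.LocalFactors

/-- The Mahler measure of an integer polynomial. -/
noncomputable def M (f : ℤ[X]) : ℝ := (f.map (Int.castRingHom ℂ)).mahlerMeasure

/-- Lehmer's polynomial. -/
noncomputable def L : ℤ[X] := X ^ 10 + X ^ 9 - X ^ 7 - X ^ 6 - X ^ 5 - X ^ 4 - X ^ 3 + X + 1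

/-- The number of distinct values of `z ^ m` for the complex zeros `z` of `f`. -/
noncomputable def powZeros (m : ℕ) (f : ℤ[X]) : ℕ :=
  ((fun z : ℂ => z ^ m) '' (f.rootSet ℂ)).ncard

/-- The reduction of an integer polynomial modulo `p`. -/
noncomputable def red (p : ℕ) (f : ℤ[X]) : (ZMod p)[X] := f.map (Int.castRingHom (ZMod p))

/-- All the irreducible factors of `A` have multiplicity at least `n` in `A`. -/
def AllMult {p : ℕ} (n : ℕ) (A : (ZMod p)[X]) : Prop :=
  ∀ R : (ZMod p)[X], Irreducible R → R ∣ A → R ^ n ∣ A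

/-- **Local factors modulo a prime.** -/
theorem result (f : ℤ[X]) (hf : Irreducible f) (hM : 1 < M f) (p : ℕ) (hp : p.Prime)
    (A B : (ZMod p)[X]) (hAB : red p f = A * B) (hco : IsCoprime A B) :
    (∀ m : ℕ, 1 ≤ m → ∀ G : ℤ[X], G.Monic → 1 ≤ G.natDegree → A ∣ red p (G.comp (X ^ m)) →
      (f.Monic → (A.natDegree : ℝ) *
          (A.natDegree * powZeros m f - 2 * G.natDegree * f.natDegree) * Real.log p ≤
        G.natDegree * f.natDegree * (f.natDegree * Real.log (powZeros m f) +
          2 * powZeros m f * m * Real.log (M f))) ∧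
      ((G.natDegree : ℝ) * f.natDegree * (f.natDegree * Real.log (powZeros m f) +
          powZeros m f * (m / 2) * Real.log 2) ≤
        A.natDegree * (A.natDegree * powZeros m f - 2 * G.natDegree * f.natDegree) *
          Real.log p → M L < M f)) ∧
    (∀ r : ℕ, 20 * f.natDegree ≤ powZeros (p ^ r) f * p ^ r →
      20 * f.natDegree * Real.log (powZeros (p ^ r) f) ≤ powZeros (p ^ r) f * (p : ℝ) ^ r →
      AllMult (20 * p ^ r) A →
      (f.Monic → 2 / 5 * ((A.natDegree : ℝ) / f.natDegree) * Real.log p <
        Real.log (M f) + 1 / 40) ∧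
      ((f.natDegree : ℝ) ≤ 2 * A.natDegree * Real.log p → M L < M f)) ∧
    (∀ r : ℕ, 8 * f.natDegree ≤ powZeros (p ^ r) f * p ^ r → AllMult (p ^ r) A → f.Monic →
      (A.natDegree : ℝ) * Real.log p ≤ 4 * f.natDegree *
        ((f.natDegree : ℝ) / powZeros (p ^ r) f *
          (Real.log (powZeros (p ^ r) f) / (p : ℝ) ^ r) + 2 * Real.log (M f))) := by
  have hL : M L < (2 : ℝ) ^ ((1 : ℝ) / 4) := Pool.Agent.TH53.SL.lehmer_lt'
  refine ⟨fun m hm G hGm hG0 hAG => ⟨fun hfm => ?_, fun h => ?_⟩,
    fun r h1 h2 h3 => ⟨fun hfm => ?_, fun h => ?_⟩, fun r h1 h3 hfm => ?_⟩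
  · obtain ⟨-, -, h3⟩ := Pool.Agent.TH860.LQ.poly_local hp f hf hfm m A B hAB hco G hGm
      (by omega) hAG
    rw [mul_assoc (2 * (powZeros m f : ℝ)) (m : ℝ)]
    exact h3
  · exact hL.trans_le (Pool.Agent.TH860.LQ.local_quarter hp f hf hM m hm A B hAB hco G hGm
      (by omega) hAG h)
  · have h4 := Pool.Agent.TH860.LQ.mult_large hp f hf hfm hM A B r hAB hco h3 h1 h2
    have hd0 : (0 : ℝ) < f.natDegree := by
      exact_mod_cast Pool.Agent.TH860.LQ.natDegree_pos' hf hfm
    have h5 : (A.natDegree : ℝ) * Real.log p / f.natDegree < (1 + 40 * Real.log (M f)) / 16 := by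
      rw [div_lt_iff₀ hd0]
      have h6 : 16 * ((A.natDegree : ℝ) * Real.log p) <
        f.natDegree * (1 + 40 * Real.log (M f)) := h4
      linarith
    calc 2 / 5 * ((A.natDegree : ℝ) / f.natDegree) * Real.log p
        = 2 / 5 * ((A.natDegree : ℝ) * Real.log p / f.natDegree) := by ring
      _ < 2 / 5 * ((1 + 40 * Real.log (M f)) / 16) := by linarith
      _ = _ := by ring
  · refine hL.trans_le (Pool.Agent.TH860.LQ.mult_quarter hp f hf hM A B r hAB hco h3 h1 h2 ?_)
    rw [← mul_assoc]
    exact h
  · exact Pool.Agent.TH860.LQ.mult_small hp f hf hfm hM A B r hAB hco h3 h1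

end Pool.Agent.Results.MP_dc0c68_nt.LocalFactors
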