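import Mathlib
import Pool.Agent.TH53.SL5
import Pool.Agent.TH860.LP.Fin

/-!
# Polynomials dividing a polynomial in `X ^ m` of small degree modulo `q`

Let `f` be an irreducible integer polynomial of degree `d` with `M(f) > 1`, let `q ≥ 2` and `m ≥ 1`
be integers (`q` need not be a prime, and nothing is assumed on the relation between `m` and `q`),
and let `N` be the number of distinct `m`-th powers of the complex zeros of `f` (so `N = d` if no
quotient of two distinct zeros is an `m`-th root of unity). Let `G` be a monic integer polynomial of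
degree `D ≥ 1` such that `f` divides `G (X ^ m)` modulo `q`.

(1) If `f` is monic, then `(N - D) log q ≤ D (log N + 2 (N / d) m log M(f))`.

(2) If `D (log N + (N / d) (m / 2) log 2) ≤ (N - D) log q`, then `M(f) > M(L)`, where `L` is Lehmer's
polynomial.

Suppose moreover that all the coefficients `a_i` of `f` with `m ∤ i` are divisible by `q`, and that
`N = d`.

(3) If `f` is monic, then `q ^ (m - 1) ≤ d * M(f) ^ (2 m)`.

(4) If `d ^ 2 * 2 ^ m ≤ q ^ (2 (m - 1))`, then `M(f) > M(L)`.

The condition `N = d` in (3) and (4) cannot be dropped without proving a lower bound for all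
polynomials, because of the polynomials `g (X ^ m)`.

Method: the values of `G` at the `m`-th powers of the zeros of `f` are divisible by `q`. So the
Vandermonde determinant of the distinct `m`-th powers is divisible by `q ^ (∑ j, ⌊j / D⌋)`, and
Hadamard's inequality bounds it from above in terms of `M(f)`.
-/

set_option autoImplicit false

open Polynomial

namespace Pool.Agent.Results.MP_dc0c68_nt.PowersModQ

/-- The Mahler measure of an integer polynomial. -/
noncomputable def M (f : ℤ[X]) : ℝ := (f.map (Int.castRingHom ℂ)).mahlerMeasure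

/-- Lehmer's polynomial. -/
noncomputable def L : ℤ[X] := X ^ 10 + X ^ 9 - X ^ 7 - X ^ 6 - X ^ 5 - X ^ 4 - X ^ 3 + X + 1

/-- The number of distinct values of `z ^ m` for the complex zeros `z` of `f`. -/
noncomputable def powZeros (m : ℕ) (f : ℤ[X]) : ℕ :=
  ((fun z : ℂ => z ^ m) '' (f.rootSet ℂ)).ncard

/-- **Polynomials dividing a polynomial in `X ^ m` modulo `q`.** -/
theorem result (f : ℤ[X]) (hf : Irreducible f) (hM : 1 < M f) (q m : ℕ) (hq : 2 ≤ q)
    (hm : 1 ≤ m) :
    (∀ G : ℤ[X], G.Monic → 1 ≤ G.natDegree →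
      (∃ A B : ℤ[X], G.comp (X ^ m) = A * f + C (q : ℤ) * B) →
      (f.Monic → ((powZeros m f : ℝ) - G.natDegree) * Real.log q ≤
        G.natDegree * (Real.log (powZeros m f) +
          2 * ((powZeros m f : ℝ) / f.natDegree) * m * Real.log (M f))) ∧
      ((G.natDegree : ℝ) * (Real.log (powZeros m f) +
          (powZeros m f : ℝ) / f.natDegree * (m / 2) * Real.log 2) ≤
          ((powZeros m f : ℝ) - G.natDegree) * Real.log q → M L < M f)) ∧
    ((∀ i, ¬ m ∣ i → (q : ℤ) ∣ f.coeff i) → powZeros m f = f.natDegree →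
      (f.Monic → (q : ℝ) ^ (m - 1) ≤ f.natDegree * M f ^ (2 * m)) ∧
      (f.natDegree ^ 2 * 2 ^ m ≤ q ^ (2 * (m - 1)) → M L < M f)) := by
  have hL : M L < (2 : ℝ) ^ ((1 : ℝ) / 4) := Pool.Agent.TH53.SL.lehmer_lt'
  refine ⟨fun G hGm hG0 hdvd => ⟨fun hfm => ?_, fun h => ?_⟩, fun hc hx => ⟨fun hfm => ?_, fun h => ?_⟩⟩
  · have h := (Pool.Agent.TH860.LP.poly_ineq f hf hfm q m (by omega) G hGm (by omega) hdvd).2
    have e : 2 * ((powZeros m f : ℝ) / f.natDegree) * m * Real.log (M f) =
      2 * ((powZeros m f : ℝ) / f.natDegree * (m * Real.log (M f))) := by ring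
    rw [e]
    exact h
  · refine hL.trans_le (Pool.Agent.TH860.LP.quarter_bound f hf hM q m (by omega) hm G hGm (by omega)
      hdvd ?_)
    have e : (m : ℝ) * (powZeros m f : ℝ) / (2 * f.natDegree) * Real.log 2 =
      (powZeros m f : ℝ) / f.natDegree * (m / 2) * Real.log 2 := by ring
    show (G.natDegree : ℝ) * (Real.log (powZeros m f) +
      m * (powZeros m f : ℝ) / (2 * f.natDegree) * Real.log 2) ≤ _
    rw [e]
    exact h
  · exact Pool.Agent.TH860.LP.gap_pow f hf hfm q m (by omega) hm hc hx (by
      have : (0 : ℝ) < M f := by linarith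
      exact this)
  · exact hL.trans_le (Pool.Agent.TH860.LP.gap_quarter f hf hM q m (by omega) hm hc hx h)

end Pool.Agent.Results.MP_dc0c68_nt.PowersModQ
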